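import Pool.Agent.Lib.MP_90732c_al.Final

/-! Tarski number at most eight when the cost of a finite-index subgroup is greater than two. -/

set_option autoImplicit false

open MeasureTheory Pool.Agent.Lib.MP_90732c_al

namespace Pool.Agent.Results.MP_90732c_al.CostAboveTwo

/-- Let `G` be finitely generated, of cost at least `1 + ε`, and let `K` be a subgroup of finite
index `n` with `n * ε > 1` (for instance `K = G` and `ε > 1`).  Then the Tarski number of `G` is at
most `8`. -/
theorem result (G : Type) [Group G] (hfg : Group.FG G) (ε : ENNReal)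
    (hcost : ∀ (X : Type) [MeasurableSpace X] [StandardBorelSpace X] [MulAction G X]
        (μ : Measure X) [IsProbabilityMeasure μ],
        (∀ g : G, MeasurePreserving (fun x : X => g • x) μ μ) →
        (∀ g : G, g ≠ 1 → μ {x : X | g • x = x} = 0) →
        ∀ (s : ℕ → G) (A : ℕ → Set X), (∀ i, MeasurableSet (A i)) →
          (∀ᵐ x ∂μ, ∀ h : G, Relation.ReflTransGen
              (fun y z : X => ∃ i, (y ∈ A i ∧ z = s i • y) ∨ (z ∈ A i ∧ y = s i • z))
              x (h • x)) →
          1 + ε ≤ ∑' i, μ (A i))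
    (K : Subgroup G) (hK : K.index ≠ 0) (hε : 1 < K.index * ε) :
    ∃ (k : ℕ) (P : Fin k → Set G) (t : Fin k → G) (S : Finset (Fin k)),
      k ≤ 8 ∧ (∀ x : G, ∃! i, x ∈ P i) ∧
      (∀ x : G, ∃! i, i ∈ S ∧ (t i)⁻¹ * x ∈ P i) ∧
      (∀ x : G, ∃! i, i ∉ S ∧ (t i)⁻¹ * x ∈ P i) := by
  have hc : CostGe G (1 + ε) := hcost
  exact tarskiLe_eight_of_index hfg hc K hK hε

end Pool.Agent.Results.MP_90732c_al.CostAboveTwo
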