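import Pool.Agent.Lib.MP_90732c_al.FdFar

/-! Non-amenable groups with a measurable free decomposition (for instance non-amenable treeable
groups) have Tarski number at most six. -/

set_option autoImplicit false

open MeasureTheory Pool.Agent.Lib.MP_90732c_al

namespace Pool.Agent.Results.MP_90732c_al.FreeDecomposition

/-- Let the countable group `G` act on the probability space `(X, μ)` preserving the measure, and
let `G` act on `G × Z`, `Z` countable, by left multiplication on the first factor.  Let
`x ↦ E x` (an equivalence relation on `G × Z`) and `x ↦ T x` (a graph on `G × Z`) be measurable and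
equivariant, such that almost surely
* the classes of `E x`, joined by the edges of `T x`, form a tree,
* different edges of `T x` give different edges of this tree, and none gives a loop,
* the number of classes which meet some `G × {z}` in an infinite set is not exactly one.

If `G` has a paradoxical decomposition with any number of pieces, i.e. if `G` is not amenable, then
it has one with at most six pieces.

Special cases: `Z` a point and `E x` equality (an invariant random spanning tree: treeable groups);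
`Z` two points, `E x` on `G × {i}` given by the orbits of a subrelation `R i` of the orbit relation
of a free action, and `T x` joining `(g, 1)` and `(g, 2)` (free products `R 1 * R 2`). -/
theorem result (G : Type) [Group G] [Countable G] (Z : Type) [Countable Z] [Nonempty Z]
    (X : Type) [MeasurableSpace X] [MulAction G X] (μ : Measure X) [IsProbabilityMeasure μ]
    (hμ : ∀ g : G, MeasurePreserving (fun x : X => g • x) μ μ)
    (E : X → Setoid (G × Z)) (T : X → SimpleGraph (G × Z))
    (hEmeas : ∀ a b : G × Z, MeasurableSet {x | (E x) a b})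
    (hTmeas : ∀ a b : G × Z, MeasurableSet {x | (T x).Adj a b})
    (hEinv : ∀ (g : G) (x : X) (a b : G × Z),
      (E (g • x)) (g * a.1, a.2) (g * b.1, b.2) ↔ (E x) a b)
    (hTinv : ∀ (g : G) (x : X) (a b : G × Z),
      (T (g • x)).Adj (g * a.1, a.2) (g * b.1, b.2) ↔ (T x).Adj a b)
    (htree : ∀ᵐ x ∂μ, (SimpleGraph.fromRel
      (Relation.Map (T x).Adj (Quotient.mk (E x)) (Quotient.mk (E x)))).IsTree)
    (hedge : ∀ᵐ x ∂μ, ∀ a b a' b' : G × Z, (T x).Adj a b → (T x).Adj a' b' →
      (E x) a a' → (E x) b b' → a = a' ∧ b = b')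
    (hloop : ∀ᵐ x ∂μ, ∀ a b : G × Z, (T x).Adj a b → ¬ (E x) a b)
    (hlarge : ∀ᵐ x ∂μ, ¬ ∃! C : Quotient (E x),
      ∃ z : Z, {g : G | Quotient.mk (E x) (g, z) = C}.Infinite)
    (hna : ∃ (k : ℕ) (P : Fin k → Set G) (t : Fin k → G) (S : Finset (Fin k)),
      (∀ x : G, ∃! i, x ∈ P i) ∧
      (∀ x : G, ∃! i, i ∈ S ∧ (t i)⁻¹ * x ∈ P i) ∧
      (∀ x : G, ∃! i, i ∉ S ∧ (t i)⁻¹ * x ∈ P i)) :
    ∃ (k : ℕ) (P : Fin k → Set G) (t : Fin k → G) (S : Finset (Fin k)),
      k ≤ 6 ∧ (∀ x : G, ∃! i, x ∈ P i) ∧
      (∀ x : G, ∃! i, i ∈ S ∧ (t i)⁻¹ * x ∈ P i) ∧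
      (∀ x : G, ∃! i, i ∉ S ∧ (t i)⁻¹ * x ∈ P i) := by
  obtain ⟨k, P, t, S, h⟩ := hna
  have hR : Fd.RandArb μ E T := by
    refine ⟨hμ, hEmeas, hTmeas, hEinv, hTinv, ?_⟩
    filter_upwards [htree, hedge, hloop] with x h1 h2 h3
    exact ⟨h1, h3, h2⟩
  exact hR.tarskiLe (Classical.arbitrary Z) hlarge (C := k) ⟨k, P, t, S, le_rfl, h⟩

end Pool.Agent.Results.MP_90732c_al.FreeDecomposition
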