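import Pool.Agent.Lib.MP_90732c_al.Cx.END

/-! A uniform bound for the Tarski numbers of all finitely generated groups of cost greater than
one. -/

set_option autoImplicit false

open MeasureTheory Pool.Agent.Lib.MP_90732c_al

namespace Pool.Agent.Results.MP_90732c_al.UniformBound

/-- Let `G` be any finitely generated group of cost greater than `1`.  Then `G` has a paradoxical
decomposition with at most `2 * 4 ^ 6000` pieces; this number depends neither on `G` nor on its
cost. -/
theorem result (G : Type) [Group G] (hfg : Group.FG G)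
    (hcost : ∃ ε : ENNReal, 0 < ε ∧
      ∀ (X : Type) [MeasurableSpace X] [StandardBorelSpace X] [MulAction G X]
        (μ : Measure X) [IsProbabilityMeasure μ],
        (∀ g : G, MeasurePreserving (fun x : X => g • x) μ μ) →
        (∀ g : G, g ≠ 1 → μ {x : X | g • x = x} = 0) →
        ∀ (s : ℕ → G) (A : ℕ → Set X), (∀ i, MeasurableSet (A i)) →
          (∀ᵐ x ∂μ, ∀ h : G, Relation.ReflTransGen
              (fun y z : X => ∃ i, (y ∈ A i ∧ z = s i • y) ∨ (z ∈ A i ∧ y = s i • z))
              x (h • x)) →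
          1 + ε ≤ ∑' i, μ (A i)) :
    ∃ (k : ℕ) (P : Fin k → Set G) (t : Fin k → G) (S : Finset (Fin k)),
      k ≤ 2 * 4 ^ 6000 ∧ (∀ x : G, ∃! i, x ∈ P i) ∧
      (∀ x : G, ∃! i, i ∈ S ∧ (t i)⁻¹ * x ∈ P i) ∧
      (∀ x : G, ∃! i, i ∉ S ∧ (t i)⁻¹ * x ∈ P i) := by
  obtain ⟨ε, hε, hc⟩ := hcost
  have hc' : CostGe G (1 + ε) := hc
  exact Cx.tarskiLe_all hfg hε hc'

end Pool.Agent.Results.MP_90732c_al.UniformBound
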